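import Mathlib

/-!
Compact systems with an action of the integers, minimal sets, limit sets, stages.
-/

set_option autoImplicit false

namespace Pool.Agent.Work.MP_69fea5_lc.HC

open MeasureTheory Filter Topology Set

/-- an action of `ℤ` by homeomorphisms -/
class ZS (E : Type) [TopologicalSpace E] where
  act : ℤ → E → E
  act_zero : ∀ x, act 0 x = x
  act_add : ∀ m n x, act (m + n) x = act m (act n x)
  act_cont : ∀ n, Continuous (act n)

export ZS (act act_zero act_add act_cont)

/-- two-sided sequences with values in `Fin k` -/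
abbrev Om (k : ℕ) : Type := ℤ → Fin k

/-- Borel probability measures on `Om k` -/
abbrev PM (k : ℕ) : Type := ProbabilityMeasure (Om k)

/-- the measure of a set as a real number -/
noncomputable def vol {k : ℕ} (m : PM k) (A : Set (Om k)) : ℝ := (m : Measure (Om k)).real A

/-- the shift -/
instance zsOm (k : ℕ) : ZS (Om k) where
  act n z := fun i => z (i + n)
  act_zero z := by simp
  act_add m n z := by funext i; show z _ = z _; congr 1; ring
  act_cont n := continuous_pi fun i => continuous_apply (i + n)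

theorem measurable_act (k : ℕ) (n : ℤ) : Measurable (act n : Om k → Om k) :=
  (act_cont n).measurable

/-- the action on measures: push forward -/
noncomputable instance zsPM (k : ℕ) : ZS (PM k) where
  act n m := m.map (measurable_act k n).aemeasurable
  act_zero m := by
    apply Subtype.ext
    show Measure.map _ _ = _
    have : (act (0 : ℤ) : Om k → Om k) = id := funext fun z => act_zero z
    rw [this, Measure.map_id]
    rfl
  act_add a b m := by
    apply Subtype.ext
    show Measure.map _ _ = Measure.map _ (Measure.map _ _)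
    rw [Measure.map_map (measurable_act k a) (measurable_act k b)]
    congr 1
    funext z
    exact act_add a b z
  act_cont n := by
    exact ProbabilityMeasure.continuous_map (act_cont n)

instance zsProd (E F : Type) [TopologicalSpace E] [TopologicalSpace F] [ZS E] [ZS F] :
    ZS (E × F) where
  act n p := (act n p.1, act n p.2)
  act_zero p := by simp [act_zero]
  act_add m n p := by simp [act_add]
  act_cont n := ((act_cont n).comp continuous_fst).prodMk ((act_cont n).comp continuous_snd)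

instance zsUnit : ZS Unit where
  act _ x := x
  act_zero _ := rfl
  act_add _ _ _ := rfl
  act_cont _ := continuous_id

/-- cylinder sets -/
def cyl {k : ℕ} (P : List (ℤ × Fin k)) : Set (Om k) := {z | ∀ p ∈ P, z p.1 = p.2}

section

variable {E : Type} [TopologicalSpace E] [ZS E]

/-- invariant sets -/
def Inv (K : Set E) : Prop := ∀ (n : ℤ) (x : E), x ∈ K → act n x ∈ K

/-- minimal closed invariant sets -/
structure IsMin (M : Set E) : Prop where
  ne : M.Nonempty
  closed : IsClosed M
  inv : Inv M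
  min : ∀ K ⊆ M, K.Nonempty → IsClosed K → Inv K → K = M

/-- the limit set of the forward orbit -/
def omg (x : E) : Set E := {y | ∀ n : ℕ, y ∈ closure {z | ∃ m : ℕ, n ≤ m ∧ z = act (m : ℤ) x}}

end

section

variable {k : ℕ} {E : Type} [TopologicalSpace E]

/-- the fibre of a set over a point -/
def fib {A : Type} (M : Set (A × E)) (y : E) : Set A := {u | (u, y) ∈ M}

/-- the colours in the fibre over a point -/
def pal (M : Set (Om k × E)) (y : E) : Set (Fin k) := {v | ∃ u, (u, y) ∈ M ∧ u 0 = v}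

/-- the support of a measure -/
def supp (m : PM k) : Set (Om k) := {g | ∀ P : List (ℤ × Fin k), g ∈ cyl P → 0 < vol m (cyl P)}

variable [ZS E]

/-- a stage of the construction -/
structure Stg (c : Om k) (y₀ : E) (M : Set (Om k × E)) (lam : E → PM k) : Prop where
  min : IsMin M
  cont : Continuous lam
  eqv : ∀ n y, lam (act n y) = act n (lam y)
  full : ∀ u y, (u, y) ∈ M → vol (lam y) (fib M y) = 1
  om : M ⊆ omg (c, y₀)
  base : ∃ u, (u, y₀) ∈ M

/-- colours in `D` accumulate at `y₀` -/
def Acc (y₀ : E) (M : Set (Om k × E)) (D : Set (Fin k)) : Prop :=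
  y₀ ∈ closure {y | (∃ u, (u, y) ∈ M) ∧ pal M y ⊆ D}

/-- the set `P` is blocked for the colour `r` -/
def Blk (c : Om k) (m : PM k) (P : List (ℤ × Fin k)) (r : Fin k) : Prop :=
  ∃ N : ℕ, ∀ x : ℕ, N ≤ x → act (x : ℤ) c ∈ cyl P → vol m (cyl P ∩ {g | g (x : ℤ) = r}) = 0

/-- Case II: blocked words are dense -/
def CaseII (c : Om k) (m : PM k) : Prop :=
  ∀ (Q : List (ℤ × Fin k)) (r : Fin k), 0 < vol m (cyl Q) → cyl Q ⊆ {z | z 0 = r} →
    ∃ P, cyl P ⊆ cyl Q ∧ 0 < vol m (cyl P) ∧ Blk c m P r

/-- McMahon's relation for the word `P` -/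
def NP (c : Om k) (y₀ : E) (M : Set (Om k × E)) (m : PM k) (P : List (ℤ × Fin k)) :
    Set (Om k × Om k × E) :=
  {p | (p.1, p.2.2) ∈ M ∧ (p.2.1, p.2.2) ∈ M ∧ ∀ n : ℕ, p ∈ closure {q | ∃ x : ℕ, n ≤ x ∧
    ∃ g ∈ cyl P ∩ supp m, q = (act (x : ℤ) c, act (x : ℤ) g, act (x : ℤ) y₀)}}

/-- the sections of a relation -/
def secZ (N : Set (Om k × Om k × E)) (u : Om k) (y : E) : Set (Om k) := {z | (u, z, y) ∈ N}

def secU (N : Set (Om k × Om k × E)) (z : Om k) (y : E) : Set (Om k) := {u | (u, z, y) ∈ N}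

/-- an invariant continuous pseudometric on the fibres of `M` -/
structure IsPD (M : Set (Om k × E)) (d : Om k → Om k → E → ℝ) : Prop where
  nonneg : ∀ u z y, 0 ≤ d u z y
  refl : ∀ u y, d u u y = 0
  symm : ∀ u z y, d u z y = d z u y
  tri : ∀ u v z y, d u z y ≤ d u v y + d v z y
  inv : ∀ n u z y, (u, y) ∈ M → (z, y) ∈ M → d (act n u) (act n z) (act n y) = d u z y
  cont : ContinuousOn (fun q : Om k × Om k × E => d q.1 q.2.1 q.2.2)
    {q | (q.1, q.2.2) ∈ M ∧ (q.2.1, q.2.2) ∈ M}

/-- the pseudodistance of the word `P` -/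
noncomputable def dP (c : Om k) (y₀ : E) (M : Set (Om k × E)) (lam : E → PM k)
    (P : List (ℤ × Fin k)) (u z : Om k) (y : E) : ℝ :=
  vol (lam y) (symmDiff (secU (NP c y₀ M (lam y₀) P) u y) (secU (NP c y₀ M (lam y₀) P) z y))

/-- limits of translates of pairs in a fibre of `M` which agree on `[-n, n]` -/
def QN (M : Set (Om k × E)) (n : ℕ) : Set (Om k × Om k × E) :=
  closure {q | ∃ (j : ℤ) (a b : Om k) (y : E), (a, y) ∈ M ∧ (b, y) ∈ M ∧
    (∀ i : ℤ, |i| ≤ n → a i = b i) ∧ q = (act j a, act j b, act j y)}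

/-- the regionally proximal relation on the fibres of `M` -/
def QQ (M : Set (Om k × E)) : Set (Om k × Om k × E) := {q | ∀ n, q ∈ QN M n}

/-- composition of relations on the fibres -/
def cmp (R S : Set (Om k × Om k × E)) : Set (Om k × Om k × E) :=
  {q | ∃ v, (q.1, v, q.2.2) ∈ R ∧ (v, q.2.1, q.2.2) ∈ S}

def Q2 (M : Set (Om k × E)) : Set (Om k × Om k × E) := cmp (QQ M) (QQ M)

def Q3 (M : Set (Om k × E)) : Set (Om k × Om k × E) := cmp (Q2 M) (QQ M)

def Q4 (M : Set (Om k × E)) : Set (Om k × Om k × E) := cmp (Q3 M) (QQ M)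

/-- points of the fibre over `y₀` with the phase of `c` -/
def ZZ (c : Om k) (y₀ : E) (M : Set (Om k × E)) : Set (Om k) :=
  {z | (z, y₀) ∈ M ∧ ∃ q ∈ Q3 M, ∀ n : ℕ, (z, q) ∈ closure
    {p : Om k × Om k × Om k × E | ∃ x : ℕ, n ≤ x ∧ ∃ w, (w, y₀) ∈ M ∧
      p = (w, act (x : ℤ) c, act (x : ℤ) w, act (x : ℤ) y₀)}}

/-- the zone of the set of colours `D` -/
def Zone (M : Set (Om k × E)) (D : Set (Fin k)) : Set (Om k × E) :=
  {p | p ∈ M ∧ ∀ u, (u, p.1, p.2) ∈ Q4 M → u 0 ∈ D}

end

section

variable {k : ℕ} {B : Type} [TopologicalSpace B] [ZS B]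

/-- closed sets of measures over the points of `B` which are convex in the sense of separation -/
def SConv (A : Set (B × PM k)) : Prop :=
  ∀ (b : B) (m : PM k), (∀ f : Om k → ℝ, Continuous f → ∃ m' : PM k, (b, m') ∈ A ∧
    ∫ z, f z ∂(m : Measure (Om k)) ≤ ∫ z, f z ∂(m' : Measure (Om k))) → (b, m) ∈ A

/-- minimal closed invariant sets of measures on the fibres of `Mp` with convex fibres -/
structure IsGA (Mp : Set (Om k × B)) (A : Set (B × PM k)) : Prop where
  ne : A.Nonempty
  closed : IsClosed A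
  inv : Inv A
  conv : SConv A
  sub : ∀ b m, (b, m) ∈ A → (∃ u, (u, b) ∈ Mp) ∧ vol m (fib Mp b) = 1
  min : ∀ A' ⊆ A, A'.Nonempty → IsClosed A' → Inv A' → SConv A' → A' = A

/-- the system over a set of measures -/
def LL (Mp : Set (Om k × B)) (Y : Set (B × PM k)) : Set (Om k × B × PM k) :=
  {p | p.2 ∈ Y ∧ (p.1, p.2.1) ∈ Mp}

end

end Pool.Agent.Work.MP_69fea5_lc.HC
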