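import Pool.Agent.Work.MP_69fea5_lc.HC.Defs

/-!
Statements of the steps of the proof (dynamical part).
-/

set_option autoImplicit false

namespace Pool.Agent.Work.MP_69fea5_lc.HC

open MeasureTheory Filter Topology Set

/-- the inner product of the vectors of the measures of all cylinders -/
noncomputable def Ip {k : ℕ} (m m' : PM k) : ℝ :=
  ∑' P : List (ℤ × Fin k), (1 / 4 : ℝ) ^ (Encodable.encode P + 1) *
    (vol m (cyl P) * vol m' (cyl P))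

/-- the square of the distance of the vectors of the measures of all cylinders -/
noncomputable def Dst {k : ℕ} (m m' : PM k) : ℝ :=
  ∑' P : List (ℤ × Fin k), (1 / 4 : ℝ) ^ (Encodable.encode P + 1) *
    (vol m (cyl P) - vol m' (cyl P)) ^ 2

/-- positive linear functionals on the bounded functions on the fibre of `M'` over `b` -/
structure IsState {k : ℕ} {B : Type} (M' : Set (Om k × B × PM k)) (b : B)
    (ν : (Om k × PM k → ℝ) → ℝ) : Prop where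
  one : ν (fun _ => 1) = 1
  add : ∀ F G : Om k × PM k → ℝ, (∃ a, ∀ p, |F p| ≤ a) → (∃ a, ∀ p, |G p| ≤ a) →
    ν (fun p => F p + G p) = ν F + ν G
  smul : ∀ (t : ℝ) (F : Om k × PM k → ℝ), (∃ a, ∀ p, |F p| ≤ a) →
    ν (fun p => t * F p) = t * ν F
  mono : ∀ F G : Om k × PM k → ℝ, (∃ a, ∀ p, |F p| ≤ a) → (∃ a, ∀ p, |G p| ≤ a) →
    (∀ u q, (u, b, q) ∈ M' → F (u, q) ≤ G (u, q)) → ν F ≤ ν G

/-- CONST: an upper semicontinuous invariant function is constant on a minimal set -/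
def S_CONST : Prop := ∀ (E : Type) [TopologicalSpace E] [CompactSpace E] [T2Space E] [SecondCountableTopology E] [ZS E] (M : Set E), IsMin M → ∀ F : E → ℝ,
  (∀ a, IsClosed {x | x ∈ M ∧ a ≤ F x}) → (∀ n x, x ∈ M → F (act n x) = F x) →
  ∀ x ∈ M, ∀ y ∈ M, F x = F y

/-- OMG: the limit set -/
def S_OMG : Prop := ∀ (E : Type) [TopologicalSpace E] [CompactSpace E] [T2Space E] [SecondCountableTopology E] [ZS E] (x : E),
  IsClosed (omg x) ∧ Inv (omg x) ∧ (omg x).Nonempty ∧ ∀ y ∈ omg x, ∃ m : ℕ → ℕ, StrictMono m ∧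
    Tendsto (fun i => act (m i : ℤ) x) atTop (𝓝 y)

/-- ORB: orbits are dense in minimal sets -/
def S_ORB : Prop := ∀ (E : Type) [TopologicalSpace E] [CompactSpace E] [T2Space E] [SecondCountableTopology E] [ZS E] (M : Set E), IsMin M → ∀ x ∈ M, ∀ y ∈ M,
  ∃ n : ℕ → ℤ, Tendsto (fun i => act (n i) x) atTop (𝓝 y)

/-- IMG: images of minimal sets under equivariant maps are minimal -/
def S_IMG : Prop := ∀ (E F : Type) [TopologicalSpace E] [CompactSpace E] [T2Space E] [ZS E]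
  [TopologicalSpace F] [T2Space F] [ZS F] (f : E → F), Continuous f →
  (∀ n x, f (act n x) = act n (f x)) → ∀ M : Set E, IsMin M → IsMin (f '' M)

/-- VC: measures of clopen sets are continuous -/
def S_VC : Prop := ∀ (k : ℕ) (C : Set (Om k)), IsClopen C → Continuous fun m : PM k => vol m C

/-- OUT: outer approximation of closed sets by clopen sets -/
def S_OUT : Prop := ∀ (k : ℕ) (m : PM k) (K : Set (Om k)), IsClosed K → ∀ a, vol m K < a →
  ∃ C, IsClopen C ∧ K ⊆ C ∧ vol m C < a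

/-- USC: measures of sections of closed sets are upper semicontinuous -/
def S_USC : Prop := ∀ (k : ℕ) (X : Type) [TopologicalSpace X] [CompactSpace X] [T2Space X]
  [SecondCountableTopology X] (K : Set (Om k × X)), IsClosed K → ∀ lam : X → PM k,
  Continuous lam → ∀ a : ℝ, IsClosed {x | a ≤ vol (lam x) (fib K x)}

/-- SUPP: the support of a measure -/
def S_SUPP : Prop := ∀ (k : ℕ) (m : PM k),
  IsClosed (supp m) ∧ vol m (supp m) = 1 ∧ (∀ K, IsClosed K → vol m K = 1 → supp m ⊆ K) ∧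
  ∀ U, IsOpen U → vol m U = 0 → Disjoint U (supp m)

/-- ACTV: measures of sets under the action -/
def S_ACTV : Prop := ∀ (k : ℕ) (m : PM k) (n : ℤ) (A : Set (Om k)), MeasurableSet A →
  vol (act n m) A = vol m {z | act n z ∈ A} ∧ vol (act n m) ((fun z => act n z) '' A) = vol m A

/-- NPC: McMahon's relation is closed and invariant -/
def S_NPC : Prop := ∀ (k : ℕ) (E : Type) [TopologicalSpace E] [CompactSpace E] [T2Space E]
  [SecondCountableTopology E] [ZS E],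
  ∀ (c : Om k) (y₀ : E) (M : Set (Om k × E)) (lam : E → PM k),
  Stg c y₀ M lam → ∀ P : List (ℤ × Fin k),
  IsClosed (NP c y₀ M (lam y₀) P) ∧ Inv (NP c y₀ M (lam y₀) P)

/-- NPS: sequences for McMahon's relation -/
def S_NPS : Prop := ∀ (k : ℕ) (E : Type) [TopologicalSpace E] [CompactSpace E] [T2Space E]
  [SecondCountableTopology E] [ZS E],
  ∀ (c : Om k) (y₀ : E) (M : Set (Om k × E)) (lam : E → PM k),
  Stg c y₀ M lam → ∀ (P : List (ℤ × Fin k)) (u z : Om k) (y : E),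
  ((u, z, y) ∈ NP c y₀ M (lam y₀) P ↔ (u, y) ∈ M ∧ (z, y) ∈ M ∧ ∃ (x : ℕ → ℕ) (g : ℕ → Om k),
    StrictMono x ∧ (∀ i, g i ∈ cyl P ∩ supp (lam y₀)) ∧
    Tendsto (fun i => act (x i : ℤ) c) atTop (𝓝 u) ∧
    Tendsto (fun i => act (x i : ℤ) (g i)) atTop (𝓝 z) ∧
    Tendsto (fun i => act (x i : ℤ) y₀) atTop (𝓝 y))

/-- LOW: the sections of McMahon's relation are large (local form) -/
def S_LOW : Prop := ∀ (k : ℕ) (E : Type) [TopologicalSpace E] [CompactSpace E] [T2Space E]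
  [SecondCountableTopology E] [ZS E],
  ∀ (c : Om k) (y₀ : E) (M : Set (Om k × E)) (lam : E → PM k),
  Stg c y₀ M lam → ∀ (P : List (ℤ × Fin k)) (u : Om k) (y : E) (x : ℕ → ℕ)
  (B : Set (Om k)), (u, y) ∈ M → StrictMono x →
  Tendsto (fun i => act (x i : ℤ) c) atTop (𝓝 u) →
  Tendsto (fun i => act (x i : ℤ) y₀) atTop (𝓝 y) → IsClosed B →
  (∀ (φ : ℕ → ℕ) (g : ℕ → Om k) (z : Om k), StrictMono φ → (∀ i, g i ∈ cyl P ∩ supp (lam y₀)) →
    Tendsto (fun i => act (x (φ i) : ℤ) (g i)) atTop (𝓝 z) → z ∈ B) →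
  vol (lam y₀) (cyl P) ≤ vol (lam y) (secZ (NP c y₀ M (lam y₀) P) u y ∩ B)

/-- FUB: Fubini's theorem for closed relations with constant sections -/
def S_FUB : Prop := ∀ (k : ℕ) (m : PM k) (N : Set (Om k × Om k)) (F : Set (Om k)) (a b : ℝ),
  IsClosed N → IsClosed F → vol m F = 1 → (∀ u ∈ F, vol m {z | (u, z) ∈ N} = a) →
  (∀ z ∈ F, vol m {u | (u, z) ∈ N} = b) → a = b

/-- FUBP: Fubini's theorem, positive form -/
def S_FUBP : Prop := ∀ (k : ℕ) (m : PM k) (N : Set (Om k × Om k)) (F C : Set (Om k)) (a : ℝ),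
  IsClosed N → IsClosed F → vol m F = 1 → IsClosed C → 0 < vol m C → 0 < a →
  (∀ u ∈ C ∩ F, a ≤ vol m {z | (u, z) ∈ N}) → ∃ z ∈ F, 0 < vol m (C ∩ {u | (u, z) ∈ N})

/-- MP: the sections of McMahon's relation have constant measure -/
def S_MP : Prop := ∀ (k : ℕ) (E : Type) [TopologicalSpace E] [CompactSpace E] [T2Space E]
  [SecondCountableTopology E] [ZS E],
  ∀ (c : Om k) (y₀ : E) (M : Set (Om k × E)) (lam : E → PM k),
  Stg c y₀ M lam → ∀ P : List (ℤ × Fin k), ∃ a : ℝ,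
  (0 < vol (lam y₀) (cyl P) → 0 < a) ∧
  (∀ u y, (u, y) ∈ M → vol (lam y) (secZ (NP c y₀ M (lam y₀) P) u y) = a) ∧
  ∀ z y, (z, y) ∈ M → vol (lam y) (secU (NP c y₀ M (lam y₀) P) z y) = a

/-- PSI: the measure of a clopen part of the section is continuous -/
def S_PSI : Prop := ∀ (k : ℕ) (E : Type) [TopologicalSpace E] [CompactSpace E] [T2Space E]
  [SecondCountableTopology E] [ZS E],
  ∀ (c : Om k) (y₀ : E) (M : Set (Om k × E)) (lam : E → PM k),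
  Stg c y₀ M lam → ∀ (P : List (ℤ × Fin k)) (C : Set (Om k)), IsClopen C →
  ContinuousOn (fun p : Om k × E =>
    vol (lam p.2) (C ∩ secU (NP c y₀ M (lam y₀) P) p.1 p.2)) M

/-- DPD: the pseudodistance of a word -/
def S_DPD : Prop := ∀ (k : ℕ) (E : Type) [TopologicalSpace E] [CompactSpace E] [T2Space E]
  [SecondCountableTopology E] [ZS E],
  ∀ (c : Om k) (y₀ : E) (M : Set (Om k × E)) (lam : E → PM k),
  Stg c y₀ M lam → ∀ P : List (ℤ × Fin k), IsPD M (dP c y₀ M lam P)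

/-- QCL: the relations `QN`, `QQ` are closed, invariant, contained in `M ×_Y M` -/
def S_QCL : Prop := ∀ (k : ℕ) (E : Type) [TopologicalSpace E] [CompactSpace E] [T2Space E]
  [SecondCountableTopology E] [ZS E] (M : Set (Om k × E)), IsMin M → (∀ n, IsClosed (QN M n) ∧
  Inv (QN M n) ∧ ∀ u z y, (u, z, y) ∈ QN M n → (u, y) ∈ M ∧ (z, y) ∈ M) ∧ IsClosed (QQ M) ∧
  Inv (QQ M) ∧ (∀ u z y, (u, z, y) ∈ QQ M → (u, y) ∈ M ∧ (z, y) ∈ M) ∧
  ∀ u y, (u, y) ∈ M → (u, u, y) ∈ QQ M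

/-- CMP: composition of closed invariant relations -/
def S_CMP : Prop := ∀ (k : ℕ) (E : Type) [TopologicalSpace E] [CompactSpace E] [T2Space E]
  [SecondCountableTopology E] [ZS E] (R S : Set (Om k × Om k × E)), IsClosed R → IsClosed S →
  IsClosed (cmp R S) ∧ (Inv R → Inv S → Inv (cmp R S)) ∧ ∀ S', cmp (cmp R S) S' = cmp R (cmp S S')

/-- QFC: closedness and invariance of the relations `Q2`, `Q3`, `Q4` -/
def S_QFC : Prop := ∀ (k : ℕ) (E : Type) [TopologicalSpace E] [CompactSpace E] [T2Space E]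
  [SecondCountableTopology E] [ZS E] (M : Set (Om k × E)), IsMin M → (IsClosed (Q2 M) ∧ Inv (Q2 M)) ∧
  (IsClosed (Q3 M) ∧ Inv (Q3 M)) ∧ (IsClosed (Q4 M) ∧ Inv (Q4 M)) ∧
  (∀ u z y, (u, z, y) ∈ Q4 M → (u, y) ∈ M ∧ (z, y) ∈ M) ∧ Q2 M ⊆ Q3 M ∧ Q3 M ⊆ Q4 M

/-- QPR: pairs which become close in the past are regionally proximal -/
def S_QPR : Prop := ∀ (k : ℕ) (E : Type) [TopologicalSpace E] [CompactSpace E] [T2Space E]
  [SecondCountableTopology E] [ZS E] (M : Set (Om k × E)), IsMin M → ∀ (y₀ y : E) (x : ℕ → ℕ)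
  (a : ℕ → Om k) (b u z : Om k), (∀ i, (a i, y₀) ∈ M) → (b, y₀) ∈ M →
  Tendsto a atTop (𝓝 b) → Tendsto (fun i => act (x i : ℤ) (a i)) atTop (𝓝 u) →
  Tendsto (fun i => act (x i : ℤ) b) atTop (𝓝 z) →
  Tendsto (fun i => act (x i : ℤ) y₀) atTop (𝓝 y) → (u, z, y) ∈ QQ M

/-- DPQ: invariant pseudodistances vanish on `Q4` -/
def S_DPQ : Prop := ∀ (k : ℕ) (E : Type) [TopologicalSpace E] [CompactSpace E] [T2Space E]
  [SecondCountableTopology E] [ZS E] (M : Set (Om k × E)) (d : Om k → Om k → E → ℝ), IsMin M →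
  IsPD M d → ∀ u z y, (u, z, y) ∈ Q4 M → d u z y = 0

/-- PSQ: points related by `Q4` have the same sections up to measure zero -/
def S_PSQ : Prop := ∀ (k : ℕ) (E : Type) [TopologicalSpace E] [CompactSpace E] [T2Space E]
  [SecondCountableTopology E] [ZS E],
  ∀ (c : Om k) (y₀ : E) (M : Set (Om k × E)) (lam : E → PM k),
  Stg c y₀ M lam → ∀ (P : List (ℤ × Fin k)) (C : Set (Om k)) (u z : Om k) (y : E),
  MeasurableSet C → (u, z, y) ∈ Q4 M →
  vol (lam y) (C ∩ secU (NP c y₀ M (lam y₀) P) u y) =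
    vol (lam y) (C ∩ secU (NP c y₀ M (lam y₀) P) z y)

/-- SLIM: supports of limits -/
def S_SLIM : Prop := ∀ (k : ℕ) (m : ℕ → PM k) (m' : PM k) (g : Om k),
  Tendsto m atTop (𝓝 m') → g ∈ supp m' → ∃ a : ℕ → Om k, (∀ i, a i ∈ supp (m i)) ∧
    Tendsto a atTop (𝓝 g)

/-- SACT: supports of translates -/
def S_SACT : Prop := ∀ (k : ℕ) (m : PM k) (n : ℤ) (g : Om k), (act n g ∈ supp (act n m) ↔ g ∈ supp m)

/-- SFIB: the support is contained in the fibre -/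
def S_SFIB : Prop := ∀ (k : ℕ) (E : Type) [TopologicalSpace E] [CompactSpace E] [T2Space E]
  [SecondCountableTopology E] [ZS E],
  ∀ (c : Om k) (y₀ : E) (M : Set (Om k × E)) (lam : E → PM k),
  Stg c y₀ M lam → ∀ y, (∃ u, (u, y) ∈ M) → ∀ g ∈ supp (lam y), (g, y) ∈ M

/-- PHAS: a point of the support with the phase of `c` -/
def S_PHAS : Prop := ∀ (k : ℕ) (E : Type) [TopologicalSpace E] [CompactSpace E] [T2Space E]
  [SecondCountableTopology E] [ZS E],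
  ∀ (c : Om k) (y₀ : E) (M : Set (Om k × E)) (lam : E → PM k),
  Stg c y₀ M lam → ∃ g ∈ supp (lam y₀), (omg (c, g, y₀) ∩ QQ M).Nonempty

/-- PHAL: every point of `M` is reached with the phase -/
def S_PHAL : Prop := ∀ (k : ℕ) (E : Type) [TopologicalSpace E] [CompactSpace E] [T2Space E]
  [SecondCountableTopology E] [ZS E],
  ∀ (c : Om k) (y₀ : E) (M : Set (Om k × E)) (lam : E → PM k),
  Stg c y₀ M lam → ∀ g, (g, y₀) ∈ M → (omg (c, g, y₀) ∩ QQ M).Nonempty →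
  ∀ u y, (u, y) ∈ M → ∃ z, (u, z, y) ∈ omg (c, g, y₀) ∩ QQ M

/-- ATHR: blocked words exclude a colour -/
def S_ATHR : Prop := ∀ (k : ℕ) (E : Type) [TopologicalSpace E] [CompactSpace E] [T2Space E]
  [SecondCountableTopology E] [ZS E],
  ∀ (c : Om k) (y₀ : E) (M : Set (Om k × E)) (lam : E → PM k),
  Stg c y₀ M lam → ∀ (P : List (ℤ × Fin k)) (r : Fin k), Blk c (lam y₀) P r → ∀ u y,
  (u, y) ∈ M → 0 < vol (lam y) (cyl P ∩ secU (NP c y₀ M (lam y₀) P) u y) → u 0 ≠ r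

/-- NEARA: sections near the phase are large -/
def S_NEARA : Prop := ∀ (k : ℕ) (E : Type) [TopologicalSpace E] [CompactSpace E] [T2Space E]
  [SecondCountableTopology E] [ZS E],
  ∀ (c : Om k) (y₀ : E) (M : Set (Om k × E)) (lam : E → PM k),
  Stg c y₀ M lam → ∀ g ∈ supp (lam y₀), (omg (c, g, y₀) ∩ QQ M).Nonempty → ∀ n : ℕ,
  ∀ P : List (ℤ × Fin k), (∀ z ∈ cyl P, ∀ i : ℤ, |i| ≤ n → z i = g i) → ∀ u ∈ cyl P,
  (u, y₀) ∈ M → vol (lam y₀) (cyl P) ≤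
    vol (lam y₀) {z | (u, z, y₀) ∈ NP c y₀ M (lam y₀) P ∩ cmp (QQ M) (QN M n)}

/-- NEAR: blocked words near the phase of `c` -/
def S_NEAR : Prop := ∀ (k : ℕ) (E : Type) [TopologicalSpace E] [CompactSpace E] [T2Space E]
  [SecondCountableTopology E] [ZS E],
  ∀ (c : Om k) (y₀ : E) (M : Set (Om k × E)) (lam : E → PM k),
  Stg c y₀ M lam → CaseII c (lam y₀) → ∀ g ∈ supp (lam y₀),
  (omg (c, g, y₀) ∩ QQ M).Nonempty → ∀ n : ℕ, ∃ (P : List (ℤ × Fin k)) (u v w : Om k),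
  Blk c (lam y₀) P (g 0) ∧ 0 < vol (lam y₀) (cyl P) ∧ u ∈ cyl P ∧
  (∀ z ∈ cyl P, ∀ i : ℤ, |i| ≤ n → z i = g i) ∧ (u, v, y₀) ∈ QQ M ∧ (v, w, y₀) ∈ QN M n ∧
  w ∈ supp (lam y₀) ∧ 0 < vol (lam y₀) (cyl P ∩ secU (NP c y₀ M (lam y₀) P) w y₀)

/-- OVER: zones over the zone of the base -/
def S_OVER : Prop := ∀ (k : ℕ) (E : Type) [TopologicalSpace E] [CompactSpace E] [T2Space E]
  [SecondCountableTopology E] [ZS E],
  ∀ (c : Om k) (y₀ : E) (M : Set (Om k × E)) (lam : E → PM k),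
  Stg c y₀ M lam → ∀ D : Set (Fin k), Acc y₀ M D → ∀ (P : List (ℤ × Fin k)) (r : Fin k),
  Blk c (lam y₀) P r → cyl P ⊆ {z | z 0 = r} → 0 < vol (lam y₀) (cyl P) →
  ∀ w ∈ supp (lam y₀), 0 < vol (lam y₀) (cyl P ∩ secU (NP c y₀ M (lam y₀) P) w y₀) →
  r ∈ D ∧ (w, y₀) ∈ closure (Zone M (D \ {r}))

/-- PHZ: points related to the phase are in `ZZ` -/
def S_PHZ : Prop := ∀ (k : ℕ) (E : Type) [TopologicalSpace E] [CompactSpace E] [T2Space E]
  [SecondCountableTopology E] [ZS E],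
  ∀ (c : Om k) (y₀ : E) (M : Set (Om k × E)) (lam : E → PM k),
  Stg c y₀ M lam → ∀ g, (g, y₀) ∈ M → (omg (c, g, y₀) ∩ QQ M).Nonempty → ∀ z,
  (g, z, y₀) ∈ Q2 M → z ∈ ZZ c y₀ M

/-- CLAIM: Case II: a colour is lost near the phase -/
def S_CLAIM : Prop := ∀ (k : ℕ) (E : Type) [TopologicalSpace E] [CompactSpace E] [T2Space E]
  [SecondCountableTopology E] [ZS E],
  ∀ (c : Om k) (y₀ : E) (M : Set (Om k × E)) (lam : E → PM k),
  Stg c y₀ M lam → ∀ D : Set (Fin k), Acc y₀ M D → CaseII c (lam y₀) →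
  ∃ r ∈ D, ∃ z ∈ ZZ c y₀ M, (z, y₀) ∈ closure (Zone M (D \ {r}))

/-- ZOM: points of the phase set and `c` -/
def S_ZOM : Prop := ∀ (k : ℕ) (E : Type) [TopologicalSpace E] [CompactSpace E] [T2Space E]
  [SecondCountableTopology E] [ZS E],
  ∀ (c : Om k) (y₀ : E) (M : Set (Om k × E)) (lam : E → PM k),
  Stg c y₀ M lam → ∀ z ∈ ZZ c y₀ M, (omg (c, z, y₀) ∩ Q4 M).Nonempty

/-- PHI: the strictly convex function on the space of measures -/
def S_PHI : Prop := ∀ k : ℕ, Continuous (fun p : PM k × PM k => Ip p.1 p.2) ∧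
  (∀ m : PM k, ∃ f : Om k → ℝ, Continuous f ∧
    ∀ m' : PM k, ∫ z, f z ∂(m' : Measure (Om k)) = Ip m m') ∧
  (∀ m m' : PM k, Dst m m' = Ip m m - 2 * Ip m m' + Ip m' m' ∧ 0 ≤ Dst m m') ∧
  (∀ m m' : PM k, Dst m m' = 0 → m = m') ∧ ∀ m m' : PM k, Ip m m' ≤ 1 ∧ 0 ≤ Ip m m'

/-- MIX: midpoints -/
def S_MIX : Prop := ∀ (k : ℕ) (m m' : PM k), ∃ q : PM k, (∀ A, MeasurableSet A →
  vol q A = (vol m A + vol m' A) / 2) ∧ (∀ f : Om k → ℝ, Continuous f →
  ∫ z, f z ∂(q : Measure (Om k)) = (∫ z, f z ∂(m : Measure (Om k)) +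
    ∫ z, f z ∂(m' : Measure (Om k))) / 2)

/-- GMAX: orbits in `A` come near the points where `Ip m m` is maximal -/
def S_GMAX : Prop := ∀ (k : ℕ) (B : Type) [TopologicalSpace B] [CompactSpace B] [T2Space B]
  [SecondCountableTopology B] [ZS B] (Mp : Set (Om k × B)) (A : Set (B × PM k)), IsMin Mp → IsGA Mp A →
  ∃ s : ℝ, (∀ b m, (b, m) ∈ A → Ip m m ≤ s) ∧ ∀ b m, (b, m) ∈ A → ∃ (n : ℕ → ℤ) (b' : B)
    (m' : PM k), Tendsto (fun i => act (n i) b) atTop (𝓝 b') ∧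
    Tendsto (fun i => act (n i) m) atTop (𝓝 m') ∧ (b', m') ∈ A ∧ Ip m' m' = s

/-- GPR: two points of a fibre of `A` are moved together to a maximal point -/
def S_GPR : Prop := ∀ (k : ℕ) (B : Type) [TopologicalSpace B] [CompactSpace B] [T2Space B]
  [SecondCountableTopology B] [ZS B] (Mp : Set (Om k × B)) (A : Set (B × PM k)), IsMin Mp → IsGA Mp A →
  ∀ s : ℝ, (∀ b m, (b, m) ∈ A → Ip m m ≤ s) → (∀ b m, (b, m) ∈ A → ∃ (n : ℕ → ℤ) (b' : B)
    (m' : PM k), Tendsto (fun i => act (n i) b) atTop (𝓝 b') ∧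
    Tendsto (fun i => act (n i) m) atTop (𝓝 m') ∧ (b', m') ∈ A ∧ Ip m' m' = s) →
  ∀ b m₁ m₂, (b, m₁) ∈ A → (b, m₂) ∈ A → ∃ (n : ℕ → ℤ) (b' : B) (m' : PM k),
    Tendsto (fun i => act (n i) b) atTop (𝓝 b') ∧
    Tendsto (fun i => act (n i) m₁) atTop (𝓝 m') ∧
    Tendsto (fun i => act (n i) m₂) atTop (𝓝 m') ∧ (b', m') ∈ A ∧ Ip m' m' = s

/-- STATE: a state on the fibre of `M'` over `b` with first marginal `m` -/
def S_STATE : Prop := ∀ (k : ℕ) (B : Type) [TopologicalSpace B] [CompactSpace B] [T2Space B]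
  [SecondCountableTopology B] [ZS B] (M' : Set (Om k × B × PM k)) (b : B) (m : PM k), IsClosed M' →
  vol m {u | ∃ q, (u, b, q) ∈ M'} = 1 → ∃ ν : (Om k × PM k → ℝ) → ℝ, IsState M' b ν ∧
    ∀ C, IsClopen C → ν (fun p => C.indicator 1 p.1) = vol m C

/-- BARY: the barycentre of a state -/
def S_BARY : Prop := ∀ (k : ℕ) (B : Type) [TopologicalSpace B] [CompactSpace B] [T2Space B]
  [SecondCountableTopology B] [ZS B] (M' : Set (Om k × B × PM k)) (b : B) (ν : (Om k × PM k → ℝ) → ℝ), IsState M' b ν →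
  ∃ β : PM k, ∀ f : Om k → ℝ, Continuous f →
    ν (fun p => ∫ z, f z ∂(p.2 : Measure (Om k))) = ∫ z, f z ∂(β : Measure (Om k))

/-- GFIN: the fibre of `M'` has full measure at a maximal point -/
def S_GFIN : Prop := ∀ (k : ℕ) (B : Type) [TopologicalSpace B] [CompactSpace B] [T2Space B]
  [SecondCountableTopology B] [ZS B] (M' : Set (Om k × B × PM k)) (b : B) (m : PM k) (ν : (Om k × PM k → ℝ) → ℝ) (s : ℝ)
  (β : PM k) (n : ℕ → ℤ) (b' : B) (m' : PM k), IsClosed M' → Inv M' → IsState M' b ν →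
  (∀ C, IsClopen C → ν (fun p => C.indicator 1 p.1) = vol m C) →
  (∀ f : Om k → ℝ, Continuous f →
    ν (fun p => ∫ z, f z ∂(p.2 : Measure (Om k))) = ∫ z, f z ∂(β : Measure (Om k))) →
  (∀ u b q, (u, b, q) ∈ M' → Ip q q ≤ s) → Ip m' m' = s →
  Tendsto (fun i => act (n i) b) atTop (𝓝 b') → Tendsto (fun i => act (n i) m) atTop (𝓝 m') →
  Tendsto (fun i => act (n i) β) atTop (𝓝 m') → vol m' {u | (u, b', m') ∈ M'} = 1

/-- GFULL: the fibres of `M'` have full measure -/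
def S_GFULL : Prop := ∀ (k : ℕ) (B : Type) [TopologicalSpace B] [CompactSpace B] [T2Space B]
  [SecondCountableTopology B] [ZS B] (Mp : Set (Om k × B)) (A Y : Set (B × PM k)) (M' : Set (Om k × B × PM k)),
  IsMin Mp → IsGA Mp A → IsMin Y → Y ⊆ A → IsMin M' → M' ⊆ LL Mp Y → ∀ b m, (b, m) ∈ Y →
  vol m {u | (u, b, m) ∈ M'} = 1

/-- GOM: the new system is in the limit set -/
def S_GOM : Prop := ∀ (k : ℕ) (B : Type) [TopologicalSpace B] [CompactSpace B] [T2Space B]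
  [SecondCountableTopology B] [ZS B] (Mp : Set (Om k × B)) (A Y : Set (B × PM k)) (M' : Set (Om k × B × PM k)),
  IsMin Mp → IsGA Mp A → IsMin Y → Y ⊆ A → IsMin M' → M' ⊆ LL Mp Y → ∀ (c : Om k) (b₀ : B)
  (m₀ : PM k), Mp ⊆ omg (c, b₀) → (b₀, m₀) ∈ Y → M' ⊆ omg (c, b₀, m₀)

/-- GSTG: the stage over a point of `Y` -/
def S_GSTG : Prop := ∀ (k : ℕ) (B : Type) [TopologicalSpace B] [CompactSpace B] [T2Space B]
  [SecondCountableTopology B] [ZS B] (Mp : Set (Om k × B)) (A Y : Set (B × PM k)) (M' : Set (Om k × B × PM k)),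
  IsMin Mp → IsGA Mp A → IsMin Y → Y ⊆ A → IsMin M' → M' ⊆ LL Mp Y → ∀ (c : Om k) (b₀ : B)
  (m₀ : PM k), Mp ⊆ omg (c, b₀) → (b₀, m₀) ∈ Y → Stg c (b₀, m₀) M' (fun q => q.2)

/-- NEXT: the next stage -/
def S_NEXT : Prop := ∀ (k : ℕ) (E : Type) [TopologicalSpace E] [CompactSpace E] [T2Space E]
  [SecondCountableTopology E] [ZS E],
  ∀ (c : Om k) (y₀ : E) (M : Set (Om k × E)) (lam : E → PM k),
  Stg c y₀ M lam → ∀ D' : Set (Fin k), ∀ z₀ ∈ ZZ c y₀ M,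
  (z₀, y₀) ∈ closure (Zone M D') → ∀ (Mp : Set (Om k × Om k × E))
  (A Y : Set ((Om k × E) × PM k)) (M' : Set (Om k × (Om k × E) × PM k)), IsMin Mp →
  Mp ⊆ omg (c, z₀, y₀) ∩ Q4 M → IsGA Mp A → IsMin Y → Y ⊆ A → IsMin M' →
  M' ⊆ LL Mp Y →
  (∃ m₀, ((z₀, y₀), m₀) ∈ closure {q | q ∈ Y ∧ q.1 ∈ Zone M D'}) ∧
  ∀ m₀ : PM k, ((z₀, y₀), m₀) ∈ closure {q | q ∈ Y ∧ q.1 ∈ Zone M D'} →
    Stg c ((z₀, y₀), m₀) M' (fun q => q.2) ∧ Acc ((z₀, y₀), m₀) M' D'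

end Pool.Agent.Work.MP_69fea5_lc.HC
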